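import Pool.Agent.U536.CF.Sc
import Pool.Agent.U536.CF.Lg
import Pool.Agent.HP778.KZ5

/-!
# `R(e) log n + S(e) z` for integers `n` near integers with a large common factor with a value of a multiplicative
function

If `e` is a period, then `P(e) log n` is a period for all integers `n ≥ 1` and all polynomials `P` with algebraic
coefficients, and so are all the numbers `P(e) log n + S(e) z` for a period `z`. Let `𝒫₁` be the space of all linear
combinations, with algebraic coefficients, of the absolutely convergent integrals of the problem in dimension one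
(`periods1`, with algebraic coefficients also in the integrand and in the inequalities). Already the question
whether `e` is in `𝒫₁` is open.

Let `f` be a positive multiplicative function of at most polynomial growth such that `f p ≤ M p` for the large primes
`p`, with different values at different large primes; for example Euler's function or the sum of the divisors. Let `G`
have steps bounded below by a positive constant and growth at most `v^d`, for example `α v^d` with any `d ≥ 1`. Let
`D ≥ 1`, `B < 1`, `0 ≤ c < 2 B - 1` and `0 ≤ κ < ρ ≤ 1`. For all large `N`, for ALL complex numbers `t_1, …, t_r` and `z`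
(the bound for `N` does not depend on them; for example `r = 1`, `t = e`), for all `m ≤ N` but `N exp (-(log N)^c)`,
for EVERY integer `w ≥ exp ((log N)^B)` with `gcd(w, f(m)) ≥ w^ρ` and EVERY integer `n ≥ 1` with `|n - G w| ≤ w ^ κ`,
the number `x log n + y z` is not in `𝒫₁`, for ALL `x = P(t) / Q(t)` transcendental and `y = S(t) / Q(t)` with
polynomials `P`, `Q`, `S` with algebraic coefficients of degree at most `D` in each variable. In particular `e log n` is
not in `𝒫₁`. The integers `w` include all large divisors of `f(m)` and their multiples by small integers; for Euler's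
function, the orders of the elements of the group of units modulo `m`.

Proof. By the hyperplane case of the linear subgroup theorem (library `Pool.Agent.HP778`, from the starting files of
Waldschmidt's and Roy's theorem) the number of the exceptional `n ≤ N` is at most a power of `log N`, whose exponent
depends only on `D` and `r`. The tool of helper536 (`Pool.Agent.U536.CF`) transfers such a uniform bound to the integers
near the integers with a large common factor with a value of a multiplicative function. These form a set of density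
zero and are taken with very large multiplicities, and so the theorem does not follow from the count of the exceptional
integers alone.
-/

set_option autoImplicit false

namespace Pool.Agent.Results.MP_2cf66e_nt.CommonFactors

open Pool.Agent.N733.TG (LM Expanding lm_totient lm_sigma expanding_pow)
open Pool.Agent.U536.CF (Common common_scale_nat common_of_dvd common_order)
open Pool.Agent.U536.CF (log_pow_le exists_small)
open Pool.Agent.HP778.KZ (periods1 periods1_le)

/-- `x = P(t) / Q(t)` and `y = S(t) / Q(t)` with polynomials `P`, `Q`, `S` with algebraic coefficients, of degree at most `D`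
in each of the variables -/
def IsQuot {r : ℕ} (D : ℕ) (t : Fin r → ℂ) (x y : ℂ) : Prop :=
  ∃ P Q S : MvPolynomial (Fin r) (algebraicClosure ℚ ℂ), (∀ i, P.degreeOf i ≤ D) ∧ (∀ i, Q.degreeOf i ≤ D) ∧
    (∀ i, S.degreeOf i ≤ D) ∧ MvPolynomial.aeval t Q ≠ 0 ∧
    x = MvPolynomial.aeval t P / MvPolynomial.aeval t Q ∧
    y = MvPolynomial.aeval t S / MvPolynomial.aeval t Q

/-- `x log n + y z` is not in `𝒫₁`, for all `x = P(t) / Q(t)` transcendental and `y = S(t) / Q(t)` with polynomials with
algebraic coefficients of degree at most `D` in each variable -/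
def Good {r : ℕ} (D : ℕ) (t : Fin r → ℂ) (z : ℂ) (n : ℕ) : Prop :=
  ∀ x y : ℂ, IsQuot D t x y → Transcendental ℚ x → x * ((Real.log n : ℝ) : ℂ) + y * z ∉ periods1

open Classical in
lemma nc_le {Q : ℕ → Prop} {M K : ℕ} (h : ((Finset.Icc 1 M).filter Q).card ≤ K) :
    {n : ℕ | 1 ≤ n ∧ n ≤ M ∧ Q n}.ncard ≤ K := by
  refine le_trans ?_ h
  rw [← Set.ncard_coe_finset]
  refine Set.ncard_le_ncard ?_ (Finset.finite_toSet _)
  rintro n ⟨g1, g2, g3⟩
  rw [Finset.mem_coe, Finset.mem_filter, Finset.mem_Icc]
  exact ⟨⟨g1, g2⟩, g3⟩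

/-- the number of the exceptional integers -/
lemma count (r D : ℕ) (hD : 1 ≤ D) {s : ℝ} (hs : 0 < s) : ∃ C : ℝ, ∀ (t : Fin r → ℂ) (z : ℂ) (M : ℕ), 1 ≤ M →
    ({n : ℕ | 1 ≤ n ∧ n ≤ M ∧ ¬ Good D t z n}.ncard : ℝ) ≤ C * (M : ℝ) ^ s := by
  classical
  obtain ⟨C, -, hC⟩ := log_pow_le (2 * (4 * D) ^ r) hs
  refine ⟨C, fun t z M hM => le_trans ?_ (hC M hM)⟩
  have h1 := Pool.Agent.HP778.count_of (N := M) (r := 2 * (4 * D) ^ r) (fun n => ¬ Good D t z n) (by
    intro m n hn halg hli
    refine (Pool.Agent.HP778.logs_ratio t z hD _ halg hli fun i => ?_).1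
    have h2 := (hn i).2
    unfold Good at h2
    push Not at h2
    obtain ⟨x, y, h3, h4, h5⟩ := h2
    exact ⟨x, y, h3, h4, periods1_le h5⟩)
  exact Nat.cast_le.2 (nc_le h1)

/-- the number `e` -/
lemma e_good {D : ℕ} (hD : 1 ≤ D) {z : ℂ} {n : ℕ} (h : Good D ![Complex.exp 1] z n) :
    Complex.exp 1 * ((Real.log n : ℝ) : ℂ) ∉ periods1 := by
  have h1 := h (Complex.exp 1) 0 ⟨MvPolynomial.X 0, 1, 0, fun j => ?_, fun j => ?_, fun j => ?_, ?_, ?_, ?_⟩
    Pool.Agent.H340R2.LW.transcendental_exp_one_complex
  · rwa [zero_mul, add_zero] at h1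
  · rw [MvPolynomial.degreeOf_X]
    split_ifs <;> omega
  · rw [MvPolynomial.degreeOf_one]
    exact Nat.zero_le _
  · rw [MvPolynomial.degreeOf_zero]
    exact Nat.zero_le _
  · rw [map_one]
    exact one_ne_zero
  · rw [map_one, MvPolynomial.aeval_X, div_one]
    rfl
  · rw [map_zero, zero_div]

/-- **`R(e) log n + S(e) z` for `n` near integers with a large common factor with a value of a multiplicative
function.** Let `f` be multiplicative and positive, of at most polynomial growth, with `f p ≤ M p` at the large primes,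
and injective there (`LM`). Let `G` have steps `≥ a > 0` and growth at most `v^d`. Let `D ≥ 1`, `B < 1`, `0 ≤ c < 2 B - 1`
and `0 ≤ κ < ρ ≤ 1`. For all large `N`, for ALL complex numbers `t_1, …, t_r` and `z`, for all `m ≤ N` but
`N exp (-(log N)^c)`, for EVERY integer `w ≥ exp ((log N)^B)` with `gcd(w, f(m)) ≥ w^ρ` and EVERY integer `n ≥ 1` with
`|n - G w| ≤ w ^ κ`: `Good D t z n`, which for `t = e` contains `e log n ∉ 𝒫₁`. All divisors `w ≥ exp ((log N)^B)` of
`f(m)` are such integers `w`, and for Euler's function the orders `≥ exp ((log N)^B)` of the units modulo `m`. Euler's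
function and the sum of the divisors are examples of `f`, and `α v^d` with `α > 0`, `d ≥ 1` is an example of `G`. -/
theorem result :
    (∀ r D : ℕ, 1 ≤ D → ∀ f : ℕ → ℕ, LM f → ∀ (G : ℕ → ℝ) (d : ℝ), Expanding G d →
      ∀ κ ρ B c : ℝ, 0 ≤ κ → κ < ρ → ρ ≤ 1 → B < 1 → 0 ≤ c → c < 2 * B - 1 →
      ∃ N₀ : ℕ, ∀ N : ℕ, N₀ ≤ N → ∀ (t : Fin r → ℂ) (z : ℂ),
        ({m : ℕ | 1 ≤ m ∧ m ≤ N ∧ ¬ ∀ w : ℕ, Common f B ρ N m w → ∀ n : ℕ, 1 ≤ n → |(n : ℝ) - G w| ≤ (w : ℝ) ^ κ →
          Good D t z n}.ncard : ℝ) ≤ N * Real.exp (-(Real.log N ^ c))) ∧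
    (∀ (D : ℕ) (z : ℂ) (n : ℕ), 1 ≤ D → Good D ![Complex.exp 1] z n →
      Complex.exp 1 * ((Real.log n : ℝ) : ℂ) ∉ periods1) ∧
    (LM Nat.totient ∧ LM (fun m => ∑ d ∈ m.divisors, d)) ∧
    (∀ α d : ℝ, 0 < α → 1 ≤ d → Expanding (fun v => α * (v : ℝ) ^ d) d) ∧
    (∀ (f : ℕ → ℕ) (B ρ : ℝ) (N m w : ℕ), ρ ≤ 1 → Real.exp (Real.log N ^ B) ≤ (w : ℝ) → w ∣ f m → Common f B ρ N m w) ∧
    ∀ (B ρ : ℝ) (N m : ℕ), ρ ≤ 1 → ∀ x : (ZMod m)ˣ, Real.exp (Real.log N ^ B) ≤ (orderOf x : ℝ) →
      Common Nat.totient B ρ N m (orderOf x) := by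
  refine ⟨?_, fun D z n hD h => e_good hD h, ⟨lm_totient, lm_sigma⟩,
    fun α d hα hd => expanding_pow hα hd, fun f B ρ N m w hρ hw hd => common_of_dvd hρ hw hd,
    fun B ρ N m hρ x hx => common_order hρ x hx⟩
  intro r D hD f hf G d hG κ ρ B c hκ h1 hρ hB hc hcb
  obtain ⟨s, hs, hs1⟩ := exists_small hG.one_le h1
  obtain ⟨C, hC⟩ := count r D hD hs
  obtain ⟨N₁, hN₁⟩ := common_scale_nat (s := s) (C := C) hs 1 0 hf hG hκ hs1 hρ hB hc hcb
  refine ⟨N₁, fun N hN t z => ?_⟩
  have key := hN₁ (fun _ n => ¬ Good D t z n) (fun n => ¬ Good D t z n) (fun M hM => hC t z M hM)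
    (fun n M _ _ _ _ h => h) N hN
  simpa only [not_not] using key

end Pool.Agent.Results.MP_2cf66e_nt.CommonFactors
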