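import Pool.Agent.U543.CnExp

/-!
# `e`, the exponentials of algebraic numbers and the periods of many curves, at the points of arbitrary small sets

Polynomials with algebraic coefficients in the periods of algebraic forms on varieties over the algebraic numbers are
periods in the sense of Kontsevich and Zagier. Is `e` of this kind? Let `P(s)` be the periods of the fibre at `s` of a
family with symplectic monodromy, for example of the curve `y² = ∏ (x - e_r)` with branch points `s = (e_r)`. We consider
polynomials in the periods `P(s_1), …, P(s_k)` of MANY fibres, `k = ω(T) → ∞`, at points `s_j` of height at most `T` from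
ARBITRARY sets `S_j` of at least `T^(2 / k) N^(|X| - 1)` points (for one-parameter families over `ℚ`: arbitrary sets of
`T^o(1)` rational numbers). For almost all tuples, in degrees up to `k` and heights up to `T^k`, the theorem of Lindemann
and Weierstrass holds over the field of the ratios of homogeneous polynomials of the same weight in the periods of the `k`
fibres and `π`: the exponentials of distinct algebraic numbers are linearly independent over this field (with the numbers
`0, 1, …, k - 1`: `e` is not algebraic of degree less than `k` over it), those of linearly independent algebraic numbers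
are algebraically independent over it, and all but one of them are algebraically independent over the ring of ALL
polynomials in the periods and `π`.
-/

namespace Pool.Agent.Results.MP_2cf66e_nt.ExponentialsManyFibres

open Filter Pool.Agent Pool.Agent.Y890.MV Pool.Agent.Y890.SM Pool.Agent.U543.CN
open Pool.Agent.U543.TU (Pts)

/-- (1) Let `F` be a family with symplectic monodromy over an open subset `U` of `ℂ ^ X`. There is `ω → ∞` such that for
all large `T`, with `k = ω T`, and all algebraic numbers `α_1, …, α_k` there is an index `a₀` such that for all number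
fields `K` of degree at most `k`, embedded in `ℂ`, and ARBITRARY finite sets `S_1, …, S_k` of points of `U` with
coordinates in `K` of height at most `T`, of norm at most `k` and at distance at least `1 / k` from the complement of `U`
(`Pts`): with at most `T ^ (1 / k) * N ^ (|X| - 1) * ∑ j, ∏ l ≠ j, |S_l|` exceptions, `N` the number of elements of `K` of
height at most `T`, all tuples `(s_1, …, s_k)` in `S_1 × … × S_k` are clean for the exponentials. If all `|S_j|` are at
least `T ^ (2 / k) * N ^ (|X| - 1)`, then at most the proportion `1 / k` of the tuples is exceptional. `CleanExp` means, for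
relations `Φ(P(s_1), …, P(s_k), e^α, π) = 0` of degree at most `k` in each variable over the integers of `K`, with conjugates
of the coefficients at most `T ^ k`: (clean) the conditions `Clean` for arbitrary numbers hold; (hom) homogeneous relations
(the periods in the `i`-th matrices have the weight `w i`, `π` has the weight `2`) hold at all `(Y_1, …, Y_k, ζ, ν)` with `ζ`
in the Zariski closure over `ℚ̄` of the exponentials and all `(Y_j, 2 i ν)` in the torsor of periods at `s_j`; (lin) if the
`α_a` are distinct, then all homogeneous relations which are linear in the exponentials are trivial; (alg) if the `α_a` are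
linearly independent over `ℚ`, then all homogeneous relations are trivial; (ring) in this case all relations which do not
contain the `a₀`-th exponential are trivial.
(2) The period matrices of all products of hyperelliptic curves `y² = ∏ (x - e i r)`, `r ≤ n i`, `n i` even, with branch
points `e i r` of increasing real parts, are such a family, with `w i = 1`. -/
theorem result :
    (∀ (X : Type) [Fintype X] [DecidableEq X] [Nonempty X] (ι : Type) [Fintype ι] [DecidableEq ι] (n : ι → ℕ)
      (F : SympFam X n),
      ∃ (ω : ℝ → ℕ) (T₀ : ℝ), Tendsto ω atTop atTop ∧ Monotone ω ∧ ∀ T, T₀ ≤ T → 0 < ω T ∧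
        ∀ α : Fin (ω T) → ℂ, (∀ a, IsAlgebraic ℚ (α a)) → ∃ a₀ : Fin (ω T),
        ∀ (K : Type) [Field K] [NumberField K], Module.finrank ℚ K ≤ ω T → ∀ (io : K →+* ℂ)
          (S : Fin (ω T) → Finset (X → K)), (∀ j, (S j : Set (X → K)) ⊆ Pts F (ω T) K io T) →
          {s | (∀ j, s j ∈ S j) ∧ ¬ CleanExp F (ω T) K io α a₀ T s}.Finite ∧
          ({s | (∀ j, s j ∈ S j) ∧ ¬ CleanExp F (ω T) K io α a₀ T s}.ncard : ℝ) ≤
            T ^ ((ω T : ℝ)⁻¹) * ({x : K | Y120.HtLe K T x}.ncard : ℝ) ^ (Fintype.card X - 1) *
              ∑ j, ∏ l ∈ Finset.univ.erase j, ((S l).card : ℝ) ∧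
          ((∀ j, (T ^ ((ω T : ℝ)⁻¹)) ^ 2 * ({x : K | Y120.HtLe K T x}.ncard : ℝ) ^ (Fintype.card X - 1) ≤
              ((S j).card : ℝ)) →
            ({s | (∀ j, s j ∈ S j) ∧ ¬ CleanExp F (ω T) K io α a₀ T s}.ncard : ℝ) ≤
              (ω T : ℝ)⁻¹ * ∏ j, ((S j).card : ℝ))) ∧
    ∀ (ι : Type) [Fintype ι] [DecidableEq ι] (n : ι → ℕ), (∀ i, Even (n i)) →
      ∃ F : SympFam (Σ i, Fin (n i + 1)) n, F.U = Y890.HE.Conf n ∧ (∀ i, F.w i = 1) ∧
        ∀ i e, F.P i e = Y890.HE.pm n e i :=
  ⟨fun _ _ _ _ _ _ _ _ F => main_exp F, fun _ _ _ n hn => ⟨hyp n hn, rfl, fun _ => rfl, fun _ _ => rfl⟩⟩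

end Pool.Agent.Results.MP_2cf66e_nt.ExponentialsManyFibres
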