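import Pool.Agent.U534.SymH
import Pool.Agent.U534.Exch

/-!
# `e`, the exponentials of all algebraic numbers and the periods of all curves of infinite sequences

Polynomials with algebraic coefficients in the periods of the algebraic forms on curves over the algebraic numbers are
periods in the sense of Kontsevich and Zagier. Is `e` of this kind? We consider infinite sequences of explicit hyperelliptic
curves: let `F_0, F_1, …` be families `y² = f_j(x) (x - 1 / t)`, `f_j` in `ℚ[x]` monic of degree `2 g_j` with distinct real roots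
different from `0`, and `α_0, α_1, …` algebraic numbers (for instance an enumeration of all algebraic numbers). We show that
there are sparse sets `E_j(t_0, …, t_(j-1))`, which depend only on the parameters chosen before, such that for EVERY
sequence `t` which avoids them (from some `j₀` on) the following is true, with `C_j` the curve of the family `F_j` with the
parameter `t_j` (the family `F_j` may also depend on the earlier parameters): for all number fields `K` and all `d`, `i`, for
all curves `C_j`, `j ∈ {s_1 < … < s_k}`, for which `s_1` is at least `j₀`, `d`, `i` and the degree of `K`, and without any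
condition on the height of coefficients:

* `rel` : ALL relations of degree at most `d` over `K` between `2πi`, the `e ^ α_a`, `a < i`, and the periods of the `k`
  curves (`4 g_j²` for each curve) hold at all points of the product of the torsors `Y pol Yᵀ = 2πi polB` of the Riemann
  relations;
* `hom` : the theorem of Lindemann and Weierstrass holds over the field of the quotients of homogeneous polynomials of the same
  weight in the periods (of the weight `1`) and `2πi` (of the weight `2`): if the numbers `β_b = ∑ e_b(a) α_a` are distinct (`e_b(a)`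
  natural numbers), and `∑ R_b e ^ β_b = 0` with homogeneous `R_b` of the same weight, then `R_b = 0` on the torsors. With the `β_b`
  among `0, 1, 2, …` : `e` is transcendental over this field, as long as the degrees are at most `d`;
* `free` : if `α_a`, `a` in a finite set `A` with at least one element, are linearly independent over `ℚ`, then all but one of the
  `e ^ α_a` (the one which is left out depends only on `A` and `α`) are algebraically independent over the ring of ALL polynomials
  in the periods and `2πi`, in degrees up to `d`. So one of two numbers like `e` and `e ^ √2` satisfies no algebraic equation over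
  this ring;
* `odd` : `e ^ α_a` is not the value of a polynomial all monomials of which have odd degree in the periods of at least one of the
  curves, for instance it is not a linear form in the periods;
* `int` : if `e ^ α_a` is a polynomial in the periods and `2πi`, or integral over the ring of these polynomials, then it is a
  polynomial in `2πi` over `K`, or integral over `K[2πi]`.

The definitions of the curves, the periods and the torsors are those of `Pool.Agent.U534.SymF`, those of the values and the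
weights are in `Pool.Agent.U534.SymH`.
-/

set_option autoImplicit false

open Matrix Module

namespace Pool.Agent.Results.MP_2cf66e_nt.ExponentialsSequences

open Pool.Agent.U534.SymF Pool.Agent.U534.SymH

/-- the relations of degree at most `d` over `K` between `2πi`, the numbers `e ^ α 0, …, e ^ α (i - 1)` and the periods of the
members of the families `C l` with the parameters `u l`; `o q A` is the index which is left out for the tuple `A` of `q + 1`
indices -/
structure Clean {k : ℕ} (C : Fin k → Family) (u : Fin k → ℕ) (K : Subfield ℂ) (d i : ℕ) (α : ℕ → ℂ)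
    (o : ∀ q, (Fin (q + 1) → ℕ) → Fin (q + 1)) : Prop where
  /-- all relations hold on the torsor of the Riemann relations -/
  rel : ∀ G : MvPolynomial (Option (Fin i) ⊕ Σ l, Fin (2 * (C l).g) × Fin (2 * (C l).g)) K, G.totalDegree ≤ d →
    evz (fun j => Complex.exp (α j)) (fun l => (C l).per (u l)) G = 0 →
      ∀ Y : (∀ l, Matrix (Fin (2 * (C l).g)) (Fin (2 * (C l).g)) ℂ), (∀ l, Y l ∈ (C l).Tor (u l)) →
        evz (fun j => Complex.exp (α j)) Y G = 0
  /-- Lindemann–Weierstrass over the homogeneous polynomials -/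
  hom : ∀ (r w : ℕ) (e : Fin r → Fin i → ℕ) (R : Fin r → MvPolynomial (Option (Σ l, Fin (2 * (C l).g) × Fin (2 * (C l).g))) K),
    (∀ b, ∑ a, e b a + (R b).totalDegree ≤ d) → (∀ b, Hom w (R b)) →
      Function.Injective (fun b => ∑ a : Fin i, (e b a : ℂ) * α a) →
        ∑ b, Complex.exp (∑ a : Fin i, (e b a : ℂ) * α a) * ev (fun l => (C l).per (u l)) (R b) = 0 →
          ∀ b, ∀ Y : (∀ l, Matrix (Fin (2 * (C l).g)) (Fin (2 * (C l).g)) ℂ), (∀ l, Y l ∈ (C l).Tor (u l)) → ev Y (R b) = 0
  /-- all but one of the exponentials of linearly independent numbers -/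
  free : ∀ (q r : ℕ) (A : Fin (q + 1) → Fin i), LinearIndependent ℚ (fun a => α (A a)) →
    ∀ (e : Fin r → Fin (q + 1) → ℕ) (R : Fin r → MvPolynomial (Option (Σ l, Fin (2 * (C l).g) × Fin (2 * (C l).g))) K),
      (∀ b, e b (o q fun a => A a) = 0) → Function.Injective e → (∀ b, ∑ a, e b a + (R b).totalDegree ≤ d) →
        ∑ b, Complex.exp (∑ a, (e b a : ℂ) * α (A a)) * ev (fun l => (C l).per (u l)) (R b) = 0 →
          ∀ b, ∀ Y : (∀ l, Matrix (Fin (2 * (C l).g)) (Fin (2 * (C l).g)) ℂ), (∀ l, Y l ∈ (C l).Tor (u l)) → ev Y (R b) = 0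
  /-- odd polynomials -/
  odd : ∀ (a : Fin i) (R : MvPolynomial (Option (Σ l, Fin (2 * (C l).g) × Fin (2 * (C l).g))) K), R.totalDegree ≤ d →
    (∀ m, R.coeff m ≠ 0 → ∃ l, Odd (∑ v : Fin (2 * (C l).g) × Fin (2 * (C l).g), m (some ⟨l, v⟩))) →
      Complex.exp (α a) ≠ ev (fun l => (C l).per (u l)) R
  /-- integral numbers -/
  int : ∀ (a : Fin i) (m : ℕ) (R : Fin m → MvPolynomial (Option (Σ l, Fin (2 * (C l).g) × Fin (2 * (C l).g))) K), m ≤ d →
    (∀ b : Fin m, (b : ℕ) + (R b).totalDegree ≤ d) →
      Complex.exp (α a) ^ m + ∑ b : Fin m, Complex.exp (α a) ^ (b : ℕ) * ev (fun l => (C l).per (u l)) (R b) = 0 →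
        ∃ p : Fin m → Polynomial K, Complex.exp (α a) ^ m + ∑ b : Fin m, Complex.exp (α a) ^ (b : ℕ) *
          Polynomial.aeval (2 * Real.pi * Complex.I : ℂ) (p b) = 0

section proof

open IntermediateField

theorem exists_o (α : ℕ → ℂ) (hα : ∀ j, IsAlgebraic ℚ (α j)) : ∃ o : ∀ q, (Fin (q + 1) → ℕ) → Fin (q + 1),
    ∀ q (A : Fin (q + 1) → ℕ), LinearIndependent ℚ (fun a => α (A a)) →
      AlgebraicIndependent (IntermediateField.adjoin ℚ {(Real.pi : ℂ)})
        (fun a : {a : Fin (q + 1) // a ≠ o q A} => Complex.exp (α (A a))) := by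
  have h1 : ∀ q (A : Fin (q + 1) → ℕ), ∃ a₀ : Fin (q + 1), LinearIndependent ℚ (fun a => α (A a)) →
      AlgebraicIndependent (IntermediateField.adjoin ℚ {(Real.pi : ℂ)})
        (fun a : {a : Fin (q + 1) // a ≠ a₀} => Complex.exp (α (A a))) := by
    intro q A
    by_cases h : LinearIndependent ℚ (fun a => α (A a))
    · obtain ⟨a₀, h2⟩ := Pool.Agent.U534.Exch.exchange (Nat.succ_pos q)
        (Pool.Agent.H327R2.SC.lw_algInd (fun a => α (A a)) (fun a => hα _) h)
        Pool.Agent.H340R2.LW.transcendental_pi_complex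
      exact ⟨a₀, fun _ => h2⟩
    · exact ⟨0, fun h2 => absurd h2 h⟩
  choose o ho using h1
  exact ⟨o, ho⟩

/-- the monomials -/
theorem exp_mono {i q : ℕ} (α : ℕ → ℂ) (A : Fin q → Fin i) (e : Fin q → ℕ) {K : Subfield ℂ} :
    MvPolynomial.aeval (fun b : Fin i => Complex.exp (α b)) (∏ a, MvPolynomial.X (A a) ^ e a : MvPolynomial (Fin i) K) =
      Complex.exp (∑ a, (e a : ℂ) * α (A a)) := by
  rw [map_prod, Complex.exp_sum]
  refine Finset.prod_congr rfl fun a _ => ?_
  rw [map_pow, MvPolynomial.aeval_X, Complex.exp_nat_mul]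

theorem deg_mono {i q : ℕ} (A : Fin q → Fin i) (e : Fin q → ℕ) {K : Subfield ℂ} :
    (∏ a, MvPolynomial.X (A a) ^ e a : MvPolynomial (Fin i) K).totalDegree ≤ ∑ a, e a := by
  refine (MvPolynomial.totalDegree_finset_prod _ _).trans (Finset.sum_le_sum fun a _ => ?_)
  rw [MvPolynomial.totalDegree_X_pow]

/-- algebraic independence over `ℚ(π)` and polynomials in `2πi` -/
theorem vanish {q r : ℕ} {K : Subfield ℂ} (hK : ∀ x ∈ K, IsAlgebraic ℚ x) (β : Fin (q + 1) → ℂ) (a₀ : Fin (q + 1))
    (h : AlgebraicIndependent (IntermediateField.adjoin ℚ {(Real.pi : ℂ)})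
        (fun a : {a : Fin (q + 1) // a ≠ a₀} => Complex.exp (β a))) (e : Fin r → Fin (q + 1) → ℕ)
    (he0 : ∀ b, e b a₀ = 0) (he : Function.Injective e) (p : Fin r → Polynomial K)
    (hp : ∑ b, Complex.exp (∑ a, (e b a : ℂ) * β a) * Polynomial.aeval (2 * Real.pi * Complex.I : ℂ) (p b) = 0) (b : Fin r) :
    Polynomial.aeval (2 * Real.pi * Complex.I : ℂ) (p b) = 0 := by
  classical
  set F₀ := IntermediateField.adjoin ℚ {(Real.pi : ℂ)} with hF₀
  set L := algebraicClosure F₀ ℂ with hL
  have hal : ∀ x : ℂ, IsAlgebraic ℚ x → x ∈ L := fun x hx => mem_algebraicClosure_iff.2 (hx.tower_top (L := F₀))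
  have hpi : (Real.pi : ℂ) ∈ L := by
    have h1 : (Real.pi : ℂ) ∈ F₀ := IntermediateField.subset_adjoin _ _ rfl
    exact L.algebraMap_mem (⟨_, h1⟩ : F₀)
  have h2pi : (2 * Real.pi * Complex.I : ℂ) ∈ L :=
    L.mul_mem (L.mul_mem (hal _ (by
      have h1 := isAlgebraic_natCast (R := ℚ) (A := ℂ) 2
      exact_mod_cast h1)) hpi) (hal _ Pool.Agent.H340R2.LW.isAlgebraic_I)
  have hpL : ∀ b, Polynomial.aeval (2 * Real.pi * Complex.I : ℂ) (p b) ∈ L := by
    intro b
    rw [Polynomial.aeval_eq_sum_range]
    refine L.sum_mem fun m _ => ?_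
    rw [Subfield.smul_def, smul_eq_mul]
    exact L.mul_mem (hal _ (hK _ ((p b).coeff m).2)) (pow_mem h2pi _)
  let e' : Fin r → ({a : Fin (q + 1) // a ≠ a₀} →₀ ℕ) := fun b => Finsupp.equivFunOnFinite.symm fun a => e b a
  have he' : Function.Injective e' := by
    intro b b' hbb
    refine he (funext fun a => ?_)
    by_cases ha : a = a₀
    · rw [ha, he0, he0]
    · exact DFunLike.congr_fun hbb (⟨a, ha⟩ : {a : Fin (q + 1) // a ≠ a₀})
  let G : MvPolynomial {a : Fin (q + 1) // a ≠ a₀} L := ∑ b, MvPolynomial.monomial (e' b) ⟨_, hpL b⟩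
  have hG0 : MvPolynomial.aeval (fun a : {a : Fin (q + 1) // a ≠ a₀} => Complex.exp (β a)) G = 0 := by
    rw [← hp]
    show MvPolynomial.aeval _ (∑ b, MvPolynomial.monomial (e' b) (⟨_, hpL b⟩ : L)) = _
    rw [map_sum]
    refine Finset.sum_congr rfl fun b _ => ?_
    rw [MvPolynomial.aeval_monomial, Finsupp.prod_fintype _ _ (by simp), mul_comm]
    congr 1
    rw [Complex.exp_sum, ← Fintype.prod_subtype_mul_prod_subtype (fun a => a ≠ a₀)]
    have h3 : ∏ a : {a : Fin (q + 1) // ¬ a ≠ a₀}, Complex.exp ((e b a : ℂ) * β a) = 1 := by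
      refine Finset.prod_eq_one fun a _ => ?_
      have h4 : (a : Fin (q + 1)) = a₀ := not_not.1 a.2
      rw [h4, he0, Nat.cast_zero, zero_mul, Complex.exp_zero]
    rw [h3, mul_one]
    refine Finset.prod_congr rfl fun a _ => ?_
    rw [Complex.exp_nat_mul]
    rfl
  have hG := (algebraicIndependent_iff.1 h.algebraicClosure) G hG0
  have h1 : G.coeff (e' b) = ⟨_, hpL b⟩ := by
    show (∑ b, MvPolynomial.monomial (e' b) (⟨_, hpL b⟩ : L)).coeff (e' b) = _
    rw [MvPolynomial.coeff_sum, Finset.sum_eq_single b]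
    · rw [MvPolynomial.coeff_monomial, if_pos rfl]
    · intro b' _ hb'
      rw [MvPolynomial.coeff_monomial, if_neg]
      exact fun h2 => hb' (he' h2)
    · intro h2
      exact absurd (Finset.mem_univ _) h2
  rw [hG, MvPolynomial.coeff_zero] at h1
  exact (congrArg Subtype.val h1).symm

end proof

/-- **The theorem.** `F j τ` is the family for the index `j`, which may depend on the earlier parameters `τ = (t_0, …, t_(j-1))`.
There are `c j τ > 0` and `M j τ` such that for all algebraic numbers `α_0, α_1, …` there are indices `o q A` and exceptional sets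
`E j τ` with at most `M T^(1 - c)` elements up to `T`, for all `T`, such that for every sequence `t` with
`t_j ∉ E_j(t_0, …, t_(j-1))` for `j ≥ j₀`: the curves with `j ≥ j₀` are not degenerate, their periods satisfy the Riemann
relations, and for every number field `K`, all `d`, `i` and all `s_1 < … < s_k` which are at least `j₀`, `[K : ℚ]`, `d` and `i`, the
`k` curves are clean: see `Clean`. -/
theorem result (F : ∀ j, (Fin j → ℕ) → Family) :
    ∃ c M : ∀ j, (Fin j → ℕ) → ℝ, (∀ j τ, 0 < c j τ) ∧ ∀ α : ℕ → ℂ, (∀ j, IsAlgebraic ℚ (α j)) →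
      ∃ (o : ∀ q, (Fin (q + 1) → ℕ) → Fin (q + 1)) (E : (∀ j, (Fin j → ℕ) → Set ℕ)),
      (∀ j τ (T : ℕ), 1 ≤ T → ((E j τ ∩ Set.Icc 1 T).ncard : ℝ) ≤ M j τ * (T : ℝ) ^ (1 - c j τ)) ∧
      ∀ (t : ℕ → ℕ) (j₀ : ℕ), (∀ j, j₀ ≤ j → t j ∉ E j fun a => t a) →
        (∀ j, j₀ ≤ j → StrictMono (branch (F j fun a => t a).a (F j fun a => t a).m (1 / (t j : ℝ))) ∧
          (F j fun a => t a).per (t j) ∈ (F j fun a => t a).Tor (t j)) ∧
        ∀ (K : Subfield ℂ), FiniteDimensional ℚ K → ∀ (d i k : ℕ) (s : Fin k → ℕ), StrictMono s →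
          (∀ l, j₀ ≤ s l ∧ finrank ℚ K ≤ s l ∧ d ≤ s l ∧ i ≤ s l) →
            Clean (fun l => F (s l) fun a => t a) (fun l => t (s l)) K d i α o := by
  classical
  obtain ⟨c, M, hc, hM⟩ := exH_count F
  refine ⟨c, M, hc, fun α hα => ?_⟩
  obtain ⟨o, ho⟩ := exists_o α hα
  refine ⟨o, ExH F (fun j => Complex.exp (α j)), hM _, fun t j₀ ht => ?_⟩
  have hG : ∀ j, j₀ ≤ j → Gd (F j fun a => t a) (j * j ^ j) (cH F (fun j => Complex.exp (α j)) j fun a => t a) (t j) := by
    intro j hj
    by_contra hcon
    exact ht j hj hcon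
  refine ⟨fun j hj => ⟨(hG j hj).1, (hG j hj).2.1⟩, ?_⟩
  intro K hK d i k s hs h0
  have hrel : RelH (fun l => F (s l) fun a => t a) (fun l => t (s l)) K d i (fun j => Complex.exp (α j)) :=
    seqH F (t := t) (j₀ := j₀) ht hK d i k s hs (fun l => (h0 l).1) (fun l => (h0 l).2.1) (fun l => (h0 l).2.2.1)
      (fun l => (h0 l).2.2.2)
  have hP : ∀ l, (F (s l) fun a => t a).per (t (s l)) ∈ (F (s l) fun a => t a).Tor (t (s l)) :=
    fun l => (hG _ (h0 l).1).2.1
  have hKalg := alg_of hK
  refine ⟨fun G hG h1 Y hY => relK hrel G hG h1 Y hY, ?_, ?_, ?_, ?_⟩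
  · intro r w e R hd hw hinj h1 b Y hY
    refine homI hP (fun b => Complex.exp (∑ a : Fin i, (e b a : ℂ) * α a)) (fun κ hκ h2 b => ?_) R hw (fun Y hY => ?_) b Y hY
    · refine Pool.Agent.H340R2.LW.lindemann_weierstrass Finset.univ (fun b => ∑ a : Fin i, (e b a : ℂ) * α a) κ
        (fun b _ => ?_) (fun b _ => hKalg _ (hκ b)) hinj.injOn ?_ b (Finset.mem_univ b)
      · exact (IsIntegral.sum _ fun a _ => ((isAlgebraic_natCast (R := ℚ) (A := ℂ) _).mul (hα _)).isIntegral).isAlgebraic
      · rw [← h2]
        exact Finset.sum_congr rfl fun b _ => mul_comm _ _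
    · have h2 := lin hrel (fun b => ∏ a, MvPolynomial.X a ^ e b a) R
        (fun b => (Nat.add_le_add_right (deg_mono (fun a => a) (e b)) _).trans (hd b)) (by
          rw [← h1]
          exact Finset.sum_congr rfl fun b _ => by rw [exp_mono α (fun a => a) (e b)]) Y hY
      rw [← h2]
      exact Finset.sum_congr rfl fun b _ => by rw [exp_mono α (fun a => a) (e b)]
  · intro q r A hli e R he0 he hd h1 b Y hY
    refine freeI hP (fun b => Complex.exp (∑ a, (e b a : ℂ) * α (A a)))
      (fun p hp => vanish hKalg (fun a => α (A a)) _ (ho q (fun a => A a) hli) e he0 he p hp) R (fun Y hY => ?_) b Y hY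
    have h2 := lin hrel (fun b => ∏ a, MvPolynomial.X (A a) ^ e b a) R
      (fun b => (Nat.add_le_add_right (deg_mono A (e b)) _).trans (hd b)) (by
        rw [← h1]
        exact Finset.sum_congr rfl fun b _ => by rw [exp_mono α A (e b)]) Y hY
    rw [← h2]
    exact Finset.sum_congr rfl fun b _ => by rw [exp_mono α A (e b)]
  · intro a R hR hodd h1
    by_cases hd : 1 ≤ d
    · exact Complex.exp_ne_zero _ (oddI hrel hP a R hd hR hodd h1)
    · have h2 : R = 0 := by
        by_contra hne
        obtain ⟨m, hm⟩ := MvPolynomial.ne_zero_iff.1 hne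
        obtain ⟨l, hl⟩ := hodd m hm
        have h3 : m.degree ≤ R.totalDegree := by
          have := MvPolynomial.le_totalDegree (MvPolynomial.mem_support_iff.2 hm)
          simpa [Finsupp.degree, Finsupp.sum] using this
        have h4 : m.degree = 0 := by omega
        rw [(Finsupp.degree_eq_zero_iff m).1 h4] at hl
        simp at hl
      rw [h2] at h1
      refine Complex.exp_ne_zero (α a) (h1.trans (map_zero _))
  · intro a m R hm hR h1
    exact intI hrel hP a R hm hR h1

end Pool.Agent.Results.MP_2cf66e_nt.ExponentialsSequences
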