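import Pool.Agent.U543.PzFin
import Pool.Agent.Y890.SM.Inst

/-!
# Every complex number is far from the nonconstant periods of almost all members of a family

Let `F` be a family with symplectic monodromy, for example all products of hyperelliptic curves `y² = ∏ (x - e_r)` with the
branch points `e_r` as parameters, and let `z_1, …, z_k` be ANY complex numbers of size at most `T ^ k`, for example `e`,
exponentials of algebraic numbers, Euler's constant, `1 / π`, or periods of other members of the family. Nothing is assumed
on the `z_i`; they may be Liouville numbers and may depend on `T`. We show that the algebraic members `s` of height at most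
`T` for which some combination of the `z_i` is very near, at distance `T ^ (-B)`, a period `Φ(P(s), 2 π i)` of `s` with a
polynomial `Φ` of bounded degree and height which is not constant on the torsor of the period relations at `s`, or very
near a quotient of two periods which is not constant there, lie on few hypersurfaces. So for almost all members all periods
of this kind are far from `e`. More generally, if a linear combination with the coefficients `z_i` of periods
`Φ_i(P(s), 2 π i)` is small, then for almost all `s` there are coefficients `w_i` near the `z_i` such that `∑ w_i Φ_i`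
vanishes on the whole torsor: near relations with arbitrary coefficients come from true ones.
-/

namespace Pool.Agent.Results.MP_2cf66e_nt.FarFromPeriods

open Filter Pool.Agent Pool.Agent.Y890.MV Pool.Agent.Y890.SM Pool.Agent.U543.NR Pool.Agent.U543.PZ
open Pool.Agent.U543.GD (Height)

/-- Let `F` be a family with symplectic monodromy over an open subset `U` of `ℂ ^ X` (`SympFam`): matrices `P i x` of
analytic functions (periods), with `P i * Q i * (P i)ᵀ = (2 π i) ^ w i J i` for alternating matrices `Q i` over `ℚ̄[x]` and
`J i` over `ℚ`, the relations of which over `ℂ[x]` are invariant under a set of rational matrices (monodromy) which is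
Zariski dense in the product of the symplectic groups of the `J i`. The torsor at `x` consists of the `Y` with
`Y i * Q i(x) * (Y i)ᵀ = (2 π i) ^ w i J i`. Let `z : Fin k → ℂ` be arbitrary complex numbers with `|z i| ≤ T ^ k`.

`Near F k K io z T δ ρ` is the set of the points `s` of `U` with coordinates in `K` of height at most `T`, of norm at most
`k` and at distance at least `1 / k` from the complement of `U`, such that for some polynomials `Φ i` in the entries of the
matrices and in a further variable, of degree at most `k` in each variable, with coefficients in the integers of `K` with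
conjugates at most `T ^ k`, one has `|∑ z i Φ i(P(s), 2 π i)| ≤ δ`, but `∑ w i Φ i(·, 2 π i)` does not vanish on the torsor
at `s` for any `w` with `|w i - z i| ≤ ρ`. `Approx F k K io z T δ` is the set of the same points `s` such that for two such
polynomials `Φ`, `Ψ` and a combination `ζ = ∑ c i z i`, the `c i` integers of `K` with conjugates at most `T ^ k`,
`|Φ(P(s), 2 π i) - ζ Ψ(P(s), 2 π i)| ≤ δ`, but `Φ(·, 2 π i)` and `Ψ(·, 2 π i)` are not proportional on the torsor at `s`.

(1) For every `k` and `ε > 0` there are `B`, `D`, `C` such that for all large `T`, all number fields `K` of degree at most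
`k`, embedded in `ℂ`, and all `z`, the union of the sets `Near` and `Approx` for `δ = T ^ (-B)`, `ρ = T ^ (-k)` is covered
by `C T ^ ε` hypersurfaces of degree at most `D`, and has at most `D C T ^ ε N ^ (|X| - 1)` elements, `N` being the number
of elements of `K` of height at most `T`. (2) For every function `v → ∞`, however slowly, there is `ω → ∞` such that for
all large `T`, `k = ω T`, all `K` of degree at most `k` and all `z`, the union for `δ = T ^ (-v T)`, `ρ = T ^ (-k)` is
covered by `T ^ (1 / k)` hypersurfaces of degree at most `T ^ (1 / k)`, and has at most `T ^ (1 / k) N ^ (|X| - 1)`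
elements. (3) The period matrices of all products of hyperelliptic curves `y² = ∏ (x - e i r)`, `r ≤ n i`, `n i` even,
with branch points `e i r` of increasing real parts, are such a family, with `w i = 1`. -/
theorem result :
    (∀ (X : Type) [Fintype X] [DecidableEq X] [Nonempty X] (ι : Type) [Fintype ι] [DecidableEq ι] (n : ι → ℕ)
      (F : SympFam X n),
      (∀ (k : ℕ) (ε : ℝ), 0 < ε → ∃ (B D : ℕ) (C T₀ : ℝ), 0 ≤ C ∧ 2 ≤ T₀ ∧ ∀ T, T₀ ≤ T →
        ∀ (K : Type) [Field K] [NumberField K], Module.finrank ℚ K ≤ k → ∀ (io : K →+* ℂ) (z : Fin k → ℂ),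
          (∀ i, ‖z i‖ ≤ T ^ k) →
          Y124.Cov D ⌊C * T ^ ε⌋₊ ((fun (s : X → K) j => io (s j)) ''
            (Near F k K io z T (T ^ (-(B : ℝ))) (T ^ (-(k : ℝ))) ∪ Approx F k K io z T (T ^ (-(B : ℝ))))) ∧
          (Near F k K io z T (T ^ (-(B : ℝ))) (T ^ (-(k : ℝ))) ∪ Approx F k K io z T (T ^ (-(B : ℝ)))).Finite ∧
          ((Near F k K io z T (T ^ (-(B : ℝ))) (T ^ (-(k : ℝ))) ∪
            Approx F k K io z T (T ^ (-(B : ℝ)))).ncard : ℝ) ≤
            D * C * T ^ ε * ((Height K T).ncard : ℝ) ^ (Fintype.card X - 1)) ∧
      (∀ v : ℝ → ℝ, Tendsto v atTop atTop →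
        ∃ (ω : ℝ → ℕ) (T₀ : ℝ), Tendsto ω atTop atTop ∧ Monotone ω ∧ ∀ T, T₀ ≤ T → 0 < ω T ∧
          ∀ (K : Type) [Field K] [NumberField K], Module.finrank ℚ K ≤ ω T → ∀ (io : K →+* ℂ) (z : Fin (ω T) → ℂ),
            (∀ i, ‖z i‖ ≤ T ^ ω T) →
            Y124.Cov ⌊T ^ ((ω T : ℝ)⁻¹)⌋₊ ⌊T ^ ((ω T : ℝ)⁻¹)⌋₊ ((fun (s : X → K) j => io (s j)) ''
              (Near F (ω T) K io z T (T ^ (-v T)) (T ^ (-(ω T : ℝ))) ∪ Approx F (ω T) K io z T (T ^ (-v T)))) ∧
            (Near F (ω T) K io z T (T ^ (-v T)) (T ^ (-(ω T : ℝ))) ∪ Approx F (ω T) K io z T (T ^ (-v T))).Finite ∧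
            ((Near F (ω T) K io z T (T ^ (-v T)) (T ^ (-(ω T : ℝ))) ∪
              Approx F (ω T) K io z T (T ^ (-v T))).ncard : ℝ) ≤
              T ^ ((ω T : ℝ)⁻¹) * ((Height K T).ncard : ℝ) ^ (Fintype.card X - 1))) ∧
    ∀ (ι : Type) [Fintype ι] [DecidableEq ι] (n : ι → ℕ), (∀ i, Even (n i)) →
      ∃ F : SympFam (Σ i, Fin (n i + 1)) n, F.U = Y890.HE.Conf n ∧ (∀ i, F.w i = 1) ∧
        ∀ i e, F.P i e = Y890.HE.pm n e i :=
  ⟨fun _ _ _ _ _ _ _ _ F => ⟨fun k ε hε => both_fix F k ε hε, fun v hv => both_grow F v hv⟩,
    fun _ _ _ n hn => ⟨hyp n hn, rfl, fun _ => rfl, fun _ _ => rfl⟩⟩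

end Pool.Agent.Results.MP_2cf66e_nt.FarFromPeriods
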